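import Mathlib
import Pool.Agent.N989.MK.Bare
import Pool.Agent.N109.T3.Defs
import Pool.Agent.N109.T3.FreeDefs
import Pool.Agent.N109.T3.Defs3
import Pool.Agent.N109.T3.Fam

/-!
# The renormalised gluon field of four dimensional hierarchical gauge theory
-/

open MeasureTheory Matrix Filter
open Pool.Agent.N989.MK Pool.Agent.N109.T3
open scoped Topology

namespace Pool.Agent.Results.MP_7f377f_mp.HierarchicalGluonField

/-- The non-trivial continuum limits of the four dimensional hierarchical lattice gauge theories
with the compact connected simple Lie group `G` form a one-parameter family `F s`, and each of them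
has a renormalised plaquette field `φ s` (the renormalised square of the curvature). For all lattice
theories which converge to `F s`, whatever their polynomial plaquette action `S`, and for all
polynomial class functions `O` of the plaquette variables, all the `r`-point functions of `O` minus
its expectation, multiplied by the fourth power of the inverse lattice spacing for every factor,
converge at distinct points to those of `κ φ`, where `κ` is the curvature of `O` at the identity.
The structure `GluonField` lists the properties of `φ`: at short distances all its correlation
functions are those of the free Maxwell theory divided by powers of the logarithm of the distance,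
uniformly in the volume, the product of two fields has an operator product expansion, at large
distances the correlations decay exponentially in the area, and the correlation functions have
infinite volume limits. The field is the derivative of the effective action with respect to the
parameter `s`, and the derivative of every expectation is the sum over all plaquettes of its
connected correlations with the field. -/
theorem result {N n : ℕ} {G : Subgroup (unitaryGroup (Fin N) ℂ)} (hG : SimpleGroup G)
    [MeasurableSpace G] [BorelSpace G] (μ : Measure G) [IsProbabilityMeasure μ]
    [μ.IsHaarMeasure] {X : Fin n → Matrix (Fin N) (Fin N) ℂ} (hX : LieBasis G X) :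
    ∃ (cA : ℝ) (F φ : ℝ → ℤ → G → ℝ), 0 < cA ∧
      -- `cA` is the Casimir constant of the adjoint representation
      (∀ c, ∑ a, (trace ((X c * X a - X a * X c)ᴴ * (X c * X a - X a * X c))).re = cA) ∧
      -- the theories `F s` are the non-trivial continuum limits
      (∀ s, ∃ (β : ℕ → ℝ) (l : ℕ → ℕ), Appr μ (F s) (fun g => (trace (mx g)).re) β l) ∧
      (∀ (S : G → ℝ) (β : ℕ → ℝ) (l : ℕ → ℕ) (F' : ℤ → G → ℝ), Appr μ F' S β l →
        F' = (fun _ _ => 1) ∨ ∃ s, F' = F s) ∧
      -- a change of the unit of length is a change of the parameter
      (∀ s k, F s (k + 1) = F (s - cA / 8) k ∧ φ s (k + 1) = φ (s - cA / 8) k) ∧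
      -- the renormalised field
      (∀ s, GluonField μ X cA (F s) (φ s)) ∧
      -- for every approximation by lattice theories and every bare operator all correlation
      -- functions converge, uniformly in the positions in the blocks
      (∀ (s : ℝ) (S : G → ℝ) (β : ℕ → ℝ) (l : ℕ → ℕ), Appr μ (F s) S β l →
        ∀ (O : G → ℝ) (κ : ℝ), ClassPoly G O → Curv X O κ →
          ∀ (k : ℤ) (j r : ℕ) (α : Fin r → Pq j), Function.Injective α → ∀ ε : ℝ, 0 < ε →
            ∀ᶠ i in atTop, ∀ p : Fin r → Pq ((l i : ℤ) + k).toNat,
              |(16 : ℝ) ^ (r * ((l i : ℤ) + k).toNat) *
                  Cn μ (bw S (β i)) (((l i : ℤ) + k).toNat + j) (fun a => jn (α a) (p a)) O -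
                κ ^ r * Cn μ (F s k) j α (φ s k)| < ε) ∧
      -- the field is the derivative of the effective action
      (∀ (s : ℝ) (k : ℤ) (x : G),
        HasDerivAt (fun t => Real.log (F t k x / F t k 1)) (φ s k x) s) ∧
      -- the action principle
      ∀ (s : ℝ) (k : ℤ) (j : ℕ) (O : (Ed j → G) → ℝ), Continuous O →
        HasDerivAt (fun t => Ex μ (F t k) j O)
          (∑ p : Pq j, (Ex μ (F s k) j (fun U => O U * φ s k (hol U p)) -
            Ex μ (F s k) j O * Ex μ (F s k) j (fun U => φ s k (hol U p)))) s :=
  gluon_fam hG hX

end Pool.Agent.Results.MP_7f377f_mp.HierarchicalGluonField
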