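import Mathlib
import Pool.Agent.N989.MK.Model3
import Pool.Agent.N989.MK.Law4

/-!
# The continuum limits of the four dimensional hierarchical lattice gauge theory
-/

open MeasureTheory Matrix Filter
open Pool.Agent.N989.MK
open scoped Topology

namespace Pool.Agent.Results.MP_7f377f_mp.HierarchicalYangMills

/-- Lattice gauge theory on the four dimensional hierarchical squares, for every compact
connected simple Lie group `G`: the classification of the continuum limits for all polynomial
plaquette actions. -/
theorem result {N n : ℕ} {G : Subgroup (unitaryGroup (Fin N) ℂ)} (hG : SimpleGroup G)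
    [MeasurableSpace G] [BorelSpace G] (μ : Measure G) [IsProbabilityMeasure μ]
    [μ.IsHaarMeasure] {X : Fin n → Matrix (Fin N) (Fin N) ℂ} (hX : LieBasis G X) :
    ∃ (cA : ℝ) (F : ℝ → ℤ → G → ℝ), 0 < cA ∧
      -- `cA` is the Casimir constant of the adjoint representation
      (∀ c, ∑ a, (trace ((X c * X a - X a * X c)ᴴ * (X c * X a - X a * X c))).re = cA) ∧
      -- the limit theories `F s`, with a mass gap
      (∀ s, Theory μ (F s)) ∧
      -- asymptotic freedom and confinement; the values of the Wilson loops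
      (∀ P, Constituent G P → (∀ s, Loops μ X P cA (F s)) ∧
        (∀ u, 0 < u → u < 1 → ∃ s, ∫ x, chr P x * F s 0 x ∂μ = u) ∧
        ∃ u₀ : ℝ, u₀ < 1 ∧ ∀ s s', u₀ < ∫ x, chr P x * F s 0 x ∂μ →
          ∫ x, chr P x * F s 0 x ∂μ = ∫ x, chr P x * F s' 0 x ∂μ → s = s') ∧
      -- the dependence on the parameter `s`
      (∀ k, Continuous fun p : ℝ × G => F p.1 k p.2) ∧ Function.Injective F ∧
      (∀ s k, F s (k + 1) = F (s - cA / 8) k) ∧
      -- for every plaquette action `S`
      ∃ q₀ : (Fin n → ℝ) → ℝ, Quart X (fun g : G => (trace (mx g)).re) 1 q₀ ∧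
      ∀ S : G → ℝ, BareAction G S → ∃ (κ : ℝ) (q : (Fin n → ℝ) → ℝ), 0 < κ ∧ Curv X S κ ∧
        Quart X S κ q ∧
        ∀ (β : ℕ → ℝ) (l : ℕ → ℕ), (∀ i, 0 < β i) → Tendsto l atTop atTop →
          -- the lattice theories which converge, equivalently converge in law, to `F s`
          (∀ s, (ConvS μ S β l (F s) ↔ Tendsto (par cA κ β l) atTop
              (𝓝 (s + 4 / (5 * n) * (lap2 q / κ - lap2 q₀)))) ∧
            (ConvE μ S β l (F s) ↔ ConvS μ S β l (F s))) ∧
          -- those which converge to the theory at infinite temperature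
          ((ConvS μ S β l (fun _ _ => 1) ↔ Tendsto (par cA κ β l) atTop atBot) ∧
            (ConvE μ S β l (fun _ _ => 1) ↔ ConvS μ S β l (fun _ _ => 1))) ∧
          -- those whose Wilson loops tend to one
          ((∀ P, Constituent G P → ∀ k : ℤ,
            Tendsto (fun i => wloop μ P (bw S (β i)) (((l i : ℤ) + k).toNat)) atTop (𝓝 1)) ↔
              Tendsto (par cA κ β l) atTop atTop) ∧
          -- there are no other limits
          (∀ F' : ℤ → G → ℝ, ConvS μ S β l F' → F' = (fun _ _ => 1) ∨ ∃ s, F' = F s) ∧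
          -- even in the sense of the laws of the conjugacy classes of the loops
          ((∀ (k : ℤ) (φ : G → ℝ), Continuous φ → (∀ g x, φ (g * x * g⁻¹) = φ x) → ∃ L : ℝ,
            Tendsto (fun i => Ex μ (bw S (β i)) (((l i : ℤ) + k).toNat)
              fun U => φ (lp fun e => U (.inl e))) atTop (𝓝 L)) →
            (∃ t, Tendsto (par cA κ β l) atTop (𝓝 t)) ∨ Tendsto (par cA κ β l) atTop atBot ∨
              Tendsto (par cA κ β l) atTop atTop) :=
  class_law hG hX

end Pool.Agent.Results.MP_7f377f_mp.HierarchicalYangMills
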