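import Pool.Agent.N726.TW.StateM
import Pool.Agent.N109.SDS.TWUpper

/-!
# The mass gap of `SU(N)` lattice Yang–Mills theory on `ℤ² × (ℤ/l)²` with 't Hooft flux

The model is defined in `Pool.Agent.N984.TW.Defs`, the observables and the reconstruction of the
Hilbert space in `Pool.Agent.N984.TW.DefsC`.
-/

open MeasureTheory

namespace Pool.Agent.Results.MP_7f377f_mp.TwistedMassGap

open Pool.Agent.N984.TW

noncomputable section

section

variable {N l : ℕ} [NeZero l] [MeasurableSpace (SU N)]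

/-- `ω` is the infinite volume limit of the expectations in the regions over rectangles `[c,d]` of
the plane, with free boundary conditions. The convergence is exponential, with the rate `m`, in the
distance between the rectangle `[a,b]` of the observable and the complement of `[c,d]`. -/
def IsLimit (μ : Measure (SU N)) (z : ℂ) (β m C : ℝ) (ω : ((Pl → Fib N l) → ℂ) → ℂ) : Prop :=
  ∀ (F : (Pl → Fib N l) → ℂ) (a b : Pl), CObs F a b → ∀ M > (0 : ℝ), (∀ U, ‖F U‖ ≤ M) →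
    ∀ (c d : Pl) (R : ℕ), Finset.Icc a b ⊆ Finset.Icc c d →
    (∀ X ∈ Finset.Icc a b, ∀ Y ∉ Finset.Icc c d, R < dP X Y) →
    ‖expectC μ z β (Finset.Icc c d) F - ω F‖ ≤
      C * M * (Finset.Icc a b).card * Real.exp (-(m * R))

/-- All truncated correlations decay exponentially with the rate `m`. -/
def IsClustering (m C : ℝ) (ω : ((Pl → Fib N l) → ℂ) → ℂ) : Prop :=
  ∀ (F F' : (Pl → Fib N l) → ℂ) (a b a' b' : Pl), CObs F a b → CObs F' a' b' →
    (∀ U, ‖F U‖ ≤ 1) → (∀ U, ‖F' U‖ ≤ 1) → ∀ R : ℕ,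
    (∀ X ∈ Finset.Icc a b, ∀ Y ∈ Finset.Icc a' b', R < dP X Y) →
    ‖ω (fun U => F U * F' U) - ω F * ω F'‖ ≤
      C * (Finset.Icc a b).card * Real.exp (-(m * R))

/-- Invariance under the translations of the plane and under the time reflection. -/
def IsInvariant (ω : ((Pl → Fib N l) → ℂ) → ℂ) : Prop :=
  ∀ (F : (Pl → Fib N l) → ℂ) (a b : Pl), CObs F a b →
    ω (fun U => F (refl U)) = ω F ∧ ∀ v : Pl, ω (fun U => F (shift v U)) = ω F

end

/-- The properties of the transfer operator `T` and of the vacuum `Ω`: `T` is a positive operator of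
norm at most one, `Ω` is a unit vector, the only vector fixed by `T` up to scalars, and the mass gap
differs from `m₀` by at most `ε`. -/
structure HasGap {H : Type} [NormedAddCommGroup H] [InnerProductSpace ℂ H] (T : H →L[ℂ] H) (Ω : H)
    (m₀ ε : ℝ) : Prop where
  pos : T.IsPositive
  norm_le : ‖T‖ ≤ 1
  unit : ‖Ω‖ = 1
  vacuum : ∀ x, T x = x ↔ ∃ c : ℂ, x = c • Ω
  gap : |massGap T - m₀| ≤ ε

/-- **The mass gap of `SU(N)` lattice Yang–Mills theory on `ℤ² × (ℤ/l)²` with 't Hooft flux.** -/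
theorem result {N l : ℕ} [NeZero N] [NeZero l] [MeasurableSpace (SU N)] [BorelSpace (SU N)]
    (hN : 2 ≤ N) {z : ℂ} (hz : IsPrimitiveRoot z N) (μ : Measure (SU N)) [IsProbabilityMeasure μ]
    [μ.IsMulLeftInvariant] {m₀ : ℝ} (hm₀ : 0 < m₀)
    (h : Real.cosh m₀ = 1 + 2 * Real.sin (Real.pi / (N * l)) ^ 2) {ε : ℝ} (hε : 0 < ε)
    (hε' : ε < m₀) :
    ∃ β₀ : ℝ, ∀ β ≥ β₀, ∃ (ω : ((Pl → Fib N l) → ℂ) → ℂ) (C : ℝ),
      IsLimit μ z β (m₀ - ε) C ω ∧ IsClustering (m₀ - ε) C ω ∧ IsInvariant ω ∧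
      (∃ (H : Type) (_ : NormedAddCommGroup H) (_ : InnerProductSpace ℂ H) (_ : CompleteSpace H)
        (T : H →L[ℂ] H) (J : ((Pl → Fib N l) → ℂ) → H), Rec ω T J) ∧
      ∀ (H : Type) [NormedAddCommGroup H] [InnerProductSpace ℂ H] [CompleteSpace H]
        (T : H →L[ℂ] H) (J : ((Pl → Fib N l) → ℂ) → H), Rec ω T J →
        HasGap T (J fun _ => 1) m₀ ε := by
  have : μ.IsMulRightInvariant := Pool.Agent.N986.SL.right_invariant μ
  obtain ⟨F, R, f1, f2, κ, hκ, b, hb, h1⟩ :=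
    upper_tw N l hN hz μ hm₀ (M2_of_cosh h) hε
  obtain ⟨β₀, h2⟩ := Pool.Agent.N726.TW.twistedM hN hz μ hm₀ h hε hε' ⟨R, F, f1, f2, κ, hκ, b, hb,
    fun β hβ C ω _ w1 => by
      have hβ0 : 0 < β := by linarith
      obtain ⟨g1, g2⟩ := h1 β hβ ω (m₀ - ε) C (by linarith) w1
      rw [pow_two]
      exact ⟨by rwa [div_le_iff₀' hβ0], g2⟩⟩
  refine ⟨β₀, fun β hβ => ?_⟩
  obtain ⟨ω, C, -, c1, c2, c3, c4, c5⟩ := h2 β hβ
  refine ⟨ω, C, c1, c2, c3, c4, fun H _ _ _ T J hR => ?_⟩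
  obtain ⟨p1, p2, p3, p4, p5⟩ := c5 H T J hR
  exact ⟨p1, p2, p3, p4, p5⟩

end

end Pool.Agent.Results.MP_7f377f_mp.TwistedMassGap
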